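import Mathlib

set_option autoImplicit false

namespace Q162.Phylo

/-- A semilabeled binary tree of size `n`: a finite tree in which every vertex has degree one or
three, and whose vertices of degree one (the leaves) are labelled bijectively by `Fin n`. -/
structure SBTree (n : ℕ) where
  /-- the vertices -/
  V : Type
  finite : Finite V
  /-- the tree -/
  G : SimpleGraph V
  isTree : G.IsTree
  degree : ∀ v, (G.neighborSet v).ncard = 1 ∨ (G.neighborSet v).ncard = 3
  /-- the leaf with a given label -/
  leaf : Fin n → V
  leaf_injective : Function.Injective leaf
  leaf_range : Set.range leaf = {v | (G.neighborSet v).ncard = 1}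

/-- The set `𝔓(T)` of the partitions (as equivalence relations) of the set of labels which arise
from `T` by deleting a set of edges: two labels are in the same class if and only if the leaves
with these labels lie in the same component of the remaining graph `H`. -/
def SBTree.partitions {n : ℕ} (T : SBTree n) : Set (Setoid (Fin n)) :=
  {r | ∃ H : SimpleGraph T.V, H ≤ T.G ∧ ∀ i j, r i j ↔ H.Reachable (T.leaf i) (T.leaf j)}

/-- The number of the partitions into exactly `k` classes in `𝔓(T_1) ∩ ⋯ ∩ 𝔓(T_t)`. -/
noncomputable def numCommon {n t : ℕ} (T : Fin t → SBTree n) (k : ℕ) : ℕ :=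
  {r : Setoid (Fin n) | (∀ i, r ∈ (T i).partitions) ∧ Nat.card (Quotient r) = k}.ncard

/-- `s^{(t)}_{n,k}`: the minimum over all collections of `t` semilabeled binary trees of size
`n`. -/
noncomputable def sMin (t n k : ℕ) : ℕ := sInf {m | ∃ T : Fin t → SBTree n, m = numCommon T k}

end Q162.Phylo
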