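import Mathlib
import Pool.Agent.Q162.Phylo.Defs

set_option autoImplicit false

/-!
# Semilabeled binary trees of every size `n ≥ 2` exist
-/

namespace Q162.Phylo

open SimpleGraph

/-- parent function of the caterpillar: the spine consists of the odd vertices -/
def par (v : ℕ) : ℕ := if v ≤ 1 then 0 else if v % 2 = 0 then v - 1 else v - 2

theorem par_lt {v : ℕ} (hv : v ≠ 0) : par v < v := by
  unfold par
  split_ifs <;> omega

/-- the caterpillar with `2 k + 2` vertices -/
def cat (k : ℕ) : SimpleGraph (Fin (2 * k + 2)) where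
  Adj u v := (u.val ≠ 0 ∧ par u.val = v.val) ∨ (v.val ≠ 0 ∧ par v.val = u.val)
  symm := ⟨fun _ _ h => h.symm⟩
  loopless := ⟨fun v h => by
    rcases h with h | h
    · have := par_lt h.1
      omega
    · have := par_lt h.1
      omega⟩

theorem cat_adj (k : ℕ) (u v : Fin (2 * k + 2)) : (cat k).Adj u v ↔
    (u.val ≠ 0 ∧ par u.val = v.val) ∨ (v.val ≠ 0 ∧ par v.val = u.val) := Iff.rfl

theorem cat_connected (k : ℕ) : (cat k).Connected := by
  have key : ∀ (m : ℕ) (hm : m < 2 * k + 2), (cat k).Reachable ⟨m, hm⟩ 0 := by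
    intro m
    induction m using Nat.strong_induction_on with
    | _ m ih =>
      intro hm
      by_cases h0 : m = 0
      · subst h0
        exact Reachable.refl _
      · have hp := par_lt h0
        have hadj : (cat k).Adj ⟨m, hm⟩ ⟨par m, by omega⟩ := Or.inl ⟨h0, rfl⟩
        exact hadj.reachable.trans (ih (par m) hp (by omega))
  have hpre : (cat k).Preconnected := fun u v => (key u.val u.isLt).trans (key v.val v.isLt).symm
  exact (connected_iff _).mpr ⟨hpre, ⟨0⟩⟩

theorem cat_isTree (k : ℕ) : (cat k).IsTree := by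
  rw [isTree_iff_connected_and_card]
  refine ⟨cat_connected k, ?_⟩
  have hplt : ∀ v : {v : Fin (2 * k + 2) // v.val ≠ 0}, par v.1.val < 2 * k + 2 := by
    intro v
    have h1 := par_lt v.2
    have h2 := v.1.isLt
    omega
  let g : {v : Fin (2 * k + 2) // v.val ≠ 0} → (cat k).edgeSet := fun v =>
    ⟨s(v.1, ⟨par v.1.val, hplt v⟩), by
      rw [mem_edgeSet]
      exact Or.inl ⟨v.2, rfl⟩⟩
  have hg : Function.Bijective g := by
    constructor
    · intro v w h
      have h1 : s(v.1, (⟨par v.1.val, hplt v⟩ : Fin (2 * k + 2))) =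
          s(w.1, ⟨par w.1.val, hplt w⟩) := congrArg Subtype.val h
      rw [Sym2.eq_iff] at h1
      rcases h1 with h1 | h1
      · exact Subtype.ext h1.1
      · exfalso
        have e1 := congrArg Fin.val h1.1
        have e2 := congrArg Fin.val h1.2
        simp only at e1 e2
        have l1 := par_lt v.2
        have l2 := par_lt w.2
        omega
    · rintro ⟨e, he⟩
      induction e using Sym2.ind with
      | _ a b =>
        rw [mem_edgeSet, cat_adj] at he
        rcases he with ⟨h1, h2⟩ | ⟨h1, h2⟩
        · refine ⟨⟨a, h1⟩, Subtype.ext ?_⟩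
          change s(a, (⟨par a.val, _⟩ : Fin (2 * k + 2))) = s(a, b)
          congr 1
          simp only [h2]
        · refine ⟨⟨b, h1⟩, Subtype.ext ?_⟩
          change s(b, (⟨par b.val, _⟩ : Fin (2 * k + 2))) = s(a, b)
          rw [Sym2.eq_swap]
          congr 1
          simp only [h2]
  rw [← Nat.card_congr (Equiv.ofBijective g hg), Nat.card_eq_fintype_card,
    Nat.card_eq_fintype_card, Fintype.card_fin, Fintype.card_subtype]
  have h1 : (Finset.univ.filter (fun v : Fin (2 * k + 2) => v.val ≠ 0)) =
      Finset.univ.erase 0 := by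
    ext v
    simp only [Finset.mem_filter, Finset.mem_univ, true_and, Finset.mem_erase, and_true, ne_eq,
      Fin.ext_iff, Fin.val_zero]
  rw [h1, Finset.card_erase_of_mem (Finset.mem_univ _), Finset.card_univ, Fintype.card_fin]
  omega

/-- the leaves -/
def IsL (k : ℕ) (v : Fin (2 * k + 2)) : Prop := v.val % 2 = 0 ∨ v.val = 2 * k + 1

theorem nb_leaf (k : ℕ) (v : Fin (2 * k + 2)) (h : IsL k v) :
    ((cat k).neighborSet v).ncard = 1 := by
  rw [Set.ncard_eq_one]
  by_cases h0 : v.val = 0
  · refine ⟨⟨1, by omega⟩, ?_⟩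
    ext w
    rw [mem_neighborSet, cat_adj, Set.mem_singleton_iff, Fin.ext_iff]
    have hw := w.isLt
    unfold par
    constructor
    · rintro (⟨h1, _⟩ | ⟨h1, h2⟩)
      · exact absurd h0 h1
      · split_ifs at h2 <;> simp only <;> omega
    · intro h1
      right
      simp only at h1
      rw [h1, h0]
      simp
  · have hlt := par_lt h0
    have hv := v.isLt
    refine ⟨⟨par v.val, by omega⟩, ?_⟩
    ext w
    rw [mem_neighborSet, cat_adj, Set.mem_singleton_iff, Fin.ext_iff]
    have hw := w.isLt
    constructor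
    · rintro (⟨_, h2⟩ | ⟨h1, h2⟩)
      · exact h2.symm
      · exfalso
        unfold IsL at h
        unfold par at h2
        split_ifs at h2 <;> omega
    · intro h1
      left
      exact ⟨h0, h1.symm⟩

theorem nb_inner (k : ℕ) (v : Fin (2 * k + 2)) (h : ¬ IsL k v) :
    ((cat k).neighborSet v).ncard = 3 := by
  unfold IsL at h
  push Not at h
  obtain ⟨h1, h2⟩ := h
  have hv := v.isLt
  have h0 : v.val ≠ 0 := by omega
  have hlt := par_lt h0
  rw [Set.ncard_eq_three]
  refine ⟨⟨par v.val, by omega⟩, ⟨v.val + 1, by omega⟩, ⟨v.val + 2, by omega⟩, ?_, ?_, ?_, ?_⟩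
  · rw [ne_eq, Fin.ext_iff]
    simp only
    omega
  · rw [ne_eq, Fin.ext_iff]
    simp only
    omega
  · rw [ne_eq, Fin.ext_iff]
    simp only
    omega
  · ext w
    rw [mem_neighborSet, cat_adj]
    simp only [Set.mem_insert_iff, Set.mem_singleton_iff, Fin.ext_iff]
    have hw := w.isLt
    constructor
    · rintro (⟨_, h3⟩ | ⟨h3, h4⟩)
      · exact Or.inl h3.symm
      · right
        unfold par at h4
        split_ifs at h4 <;> omega
    · rintro (h3 | h3 | h3)
      · exact Or.inl ⟨h0, h3.symm⟩
      · right
        refine ⟨by omega, ?_⟩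
        unfold par
        split_ifs <;> omega
      · right
        refine ⟨by omega, ?_⟩
        unfold par
        split_ifs <;> omega

theorem exists_tree (n : ℕ) (hn : 2 ≤ n) : Nonempty (SBTree n) := by
  obtain ⟨k, rfl⟩ : ∃ k, n = k + 2 := ⟨n - 2, by omega⟩
  refine ⟨⟨Fin (2 * k + 2), inferInstance, cat k, cat_isTree k, ?_, fun j =>
    if h : j.val ≤ k then ⟨2 * j.val, by omega⟩ else ⟨2 * k + 1, by omega⟩, ?_, ?_⟩⟩
  · intro v
    by_cases h : IsL k v
    · exact Or.inl (nb_leaf k v h)
    · exact Or.inr (nb_inner k v h)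
  · intro i j hij
    simp only at hij
    have hi := i.isLt
    have hj := j.isLt
    apply Fin.ext
    split_ifs at hij with h1 h2 h2
    · rw [Fin.ext_iff] at hij
      simp only at hij
      omega
    · rw [Fin.ext_iff] at hij
      simp only at hij
      omega
    · rw [Fin.ext_iff] at hij
      simp only at hij
      omega
    · omega
  · ext v
    rw [Set.mem_range]
    have hiff : ((cat k).neighborSet v).ncard = 1 ↔ IsL k v := by
      constructor
      · intro h
        by_contra hcon
        rw [nb_inner k v hcon] at h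
        omega
      · exact nb_leaf k v
    change _ ↔ ((cat k).neighborSet v).ncard = 1
    rw [hiff]
    have hv := v.isLt
    unfold IsL
    constructor
    · rintro ⟨j, rfl⟩
      split_ifs
      · left
        simp only
        omega
      · right
        rfl
    · rintro (h | h)
      · refine ⟨⟨v.val / 2, by omega⟩, ?_⟩
        have h3 : v.val / 2 ≤ k := by omega
        rw [dif_pos h3]
        apply Fin.ext
        simp only
        omega
      · refine ⟨⟨k + 1, by omega⟩, ?_⟩
        have h3 : ¬ (k + 1 ≤ k) := by omega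
        rw [dif_neg h3]
        apply Fin.ext
        simp only
        omega

end Q162.Phylo
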