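import Mathlib
import Pool.Agent.Q162.Phylo.Defs

set_option autoImplicit false

namespace Q162.Phylo

open SimpleGraph

section sides

variable {V : Type} {G : SimpleGraph V}

/-- the component of `v` after deleting the edge `uv` -/
def side (G : SimpleGraph V) (u v : V) : Set V := {x | (G.deleteEdges {s(u, v)}).Reachable x v}

theorem mem_side_self (u v : V) : v ∈ side G u v := Reachable.refl v

theorem side_or (hG : G.Connected) (u v x : V) : x ∈ side G u v ∨ x ∈ side G v u := by
  obtain ⟨p⟩ := hG.preconnected x v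
  have key : ∀ (a b : V) (q : G.Walk a b), b = v → a ∈ side G u v ∨ a ∈ side G v u := by
    intro a b q
    induction q with
    | nil =>
      rintro rfl
      exact Or.inl (Reachable.refl _)
    | @cons a c b h q ih =>
      intro hb
      by_cases he : s(a, c) = s(u, v)
      · rw [Sym2.eq_iff] at he
        rcases he with ⟨rfl, rfl⟩ | ⟨rfl, rfl⟩
        · exact Or.inr (Reachable.refl _)
        · exact Or.inl (Reachable.refl _)
      · have hadj : (G.deleteEdges {s(u, v)}).Adj a c := by
          rw [deleteEdges_adj]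
          exact ⟨h, by simpa using he⟩
        rcases ih hb with h1 | h1
        · exact Or.inl (hadj.reachable.trans h1)
        · right
          have h2 : (G.deleteEdges {s(v, u)}).Adj a c := by
            rw [Sym2.eq_swap]
            exact hadj
          exact h2.reachable.trans h1
  exact key x v p rfl

theorem side_not_both (hG : G.IsAcyclic) {u v x : V} (h : G.Adj u v) (h1 : x ∈ side G u v)
    (h2 : x ∈ side G v u) : False := by
  have hb := (isAcyclic_iff_forall_adj_isBridge.mp hG) h
  rw [isBridge_iff] at hb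
  have h2' : (G.deleteEdges {s(u, v)}).Reachable x u := by
    have : x ∈ side G v u := h2
    unfold side at this
    rw [Sym2.eq_swap] at this
    exact this
  have h1' : (G.deleteEdges {s(u, v)}).Reachable x v := h1
  exact hb (h2'.symm.trans h1')

theorem exists_nb (hG : G.Connected) {v x : V} (hx : x ≠ v) :
    ∃ w, G.Adj v w ∧ x ∈ side G v w := by
  obtain ⟨p, hp⟩ := (hG.preconnected v x).exists_isPath
  cases p with
  | nil => exact absurd rfl hx
  | @cons _ w _ h q =>
    refine ⟨w, h, ?_⟩
    rw [Walk.cons_isPath_iff] at hp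
    have h1 : (G.deleteEdges {s(v, w)}).Reachable w x := by
      rw [reachable_deleteEdges_iff_exists_walk]
      exact ⟨q, fun he => hp.2 (q.fst_mem_support_of_mem_edges he)⟩
    exact h1.symm

theorem nb_unique (hG : G.IsAcyclic) {v w w' x : V} (h : G.Adj v w) (h' : G.Adj v w')
    (hx : x ∈ side G v w) (hx' : x ∈ side G v w') : w = w' := by
  classical
  by_contra hne
  have hb := (isAcyclic_iff_forall_adj_isBridge.mp hG) h
  have hb' := (isAcyclic_iff_forall_adj_isBridge.mp hG) h'
  rw [isBridge_iff] at hb hb'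
  have hx1 : (G.deleteEdges {s(v, w')}).Reachable x w' := hx'
  rw [reachable_deleteEdges_iff_exists_walk] at hx1
  obtain ⟨q, hq⟩ := hx1
  have hv : v ∉ q.support := by
    intro hv
    apply hb'
    rw [reachable_deleteEdges_iff_exists_walk]
    exact ⟨q.dropUntil v hv, fun he => hq (q.edges_dropUntil_subset_edges hv he)⟩
  have h1 : (G.deleteEdges {s(v, w)}).Reachable x w' := by
    rw [reachable_deleteEdges_iff_exists_walk]
    exact ⟨q, fun he => hv (q.fst_mem_support_of_mem_edges he)⟩
  have h2 : (G.deleteEdges {s(v, w)}).Adj w' v := by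
    rw [deleteEdges_adj]
    refine ⟨h'.symm, ?_⟩
    simp only [Set.mem_singleton_iff, Sym2.eq_iff, not_or]
    exact ⟨fun hh => h.ne hh.2, fun hh => hne hh.1.symm⟩
  have hx2 : (G.deleteEdges {s(v, w)}).Reachable x w := hx
  exact hb ((h1.trans h2.reachable).symm.trans hx2)

theorem notMem_side (hG : G.IsAcyclic) {v w : V} (h : G.Adj v w) : v ∉ side G v w := fun hv =>
  side_not_both hG h hv (mem_side_self w v)

theorem side_sub (hG : G.IsTree) {u v w : V} (huv : G.Adj u v) (hvw : G.Adj v w) (hne : w ≠ u) :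
    side G v w ⊆ side G u v := by
  intro x hx
  rcases side_or hG.connected u v x with h | h
  · exact h
  · exact absurd (nb_unique hG.isAcyclic hvw huv.symm hx h) hne

theorem side_split (hG : G.IsTree) {u v w₁ w₂ : V} (huv : G.Adj u v)
    (hn : G.neighborSet v = {u, w₁, w₂}) (h1 : w₁ ≠ u) (h2 : w₂ ≠ u) {x : V} (hx : x ≠ v) :
    x ∈ side G u v ↔ x ∈ side G v w₁ ∨ x ∈ side G v w₂ := by
  have a1 : G.Adj v w₁ := by
    have : w₁ ∈ G.neighborSet v := by rw [hn]; simp
    exact this
  have a2 : G.Adj v w₂ := by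
    have : w₂ ∈ G.neighborSet v := by rw [hn]; simp
    exact this
  constructor
  · intro h
    obtain ⟨w, hw, hxw⟩ := exists_nb hG.connected hx
    have hmem : w ∈ G.neighborSet v := hw
    rw [hn] at hmem
    rcases hmem with rfl | rfl | rfl
    · exact (side_not_both hG.isAcyclic huv h hxw).elim
    · exact Or.inl hxw
    · exact Or.inr hxw
  · rintro (h | h)
    · exact side_sub hG huv a1 h1 h
    · exact side_sub hG huv a2 h2 h

end sides

section count

open Classical in
/-- the number of elements of `X` on the `v` side of the edge `uv` -/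
noncomputable def num {n : ℕ} (T : SBTree n) (X : Finset (Fin n)) (u v : T.V) : ℕ :=
  (X.filter (fun i => T.leaf i ∈ side T.G u v)).card

theorem num_add {n : ℕ} (T : SBTree n) (X : Finset (Fin n)) {u v : T.V} (h : T.G.Adj u v) :
    num T X u v + num T X v u = X.card := by
  classical
  unfold num
  rw [← Finset.card_filter_add_card_filter_not (s := X) (fun i => T.leaf i ∈ side T.G u v)]
  congr 2
  apply Finset.filter_congr
  intro i _
  constructor
  · intro h1 h2
    exact side_not_both T.isTree.isAcyclic h h2 h1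
  · intro h1
    rcases side_or T.isTree.connected u v (T.leaf i) with h2 | h2
    · exact absurd h2 h1
    · exact h2

theorem ncard_leaf {n : ℕ} (T : SBTree n) (i : Fin n) :
    (T.G.neighborSet (T.leaf i)).ncard = 1 := by
  have h : T.leaf i ∈ Set.range T.leaf := ⟨i, rfl⟩
  rw [T.leaf_range] at h
  exact h

theorem num_split {n : ℕ} (T : SBTree n) (X : Finset (Fin n)) {u v w₁ w₂ : T.V}
    (h : T.G.Adj u v) (hn : T.G.neighborSet v = {u, w₁, w₂}) (h1 : w₁ ≠ u) (h2 : w₂ ≠ u)
    (h12 : w₁ ≠ w₂) : num T X u v = num T X v w₁ + num T X v w₂ := by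
  classical
  have hv : ∀ i, T.leaf i ≠ v := by
    intro i hi
    have h3 := ncard_leaf T i
    rw [hi, hn, Set.ncard_eq_three.mpr ⟨u, w₁, w₂, h1.symm, h2.symm, h12, rfl⟩] at h3
    omega
  have a1 : T.G.Adj v w₁ := by
    have : w₁ ∈ T.G.neighborSet v := by rw [hn]; simp
    exact this
  have a2 : T.G.Adj v w₂ := by
    have : w₂ ∈ T.G.neighborSet v := by rw [hn]; simp
    exact this
  unfold num
  rw [← Finset.card_union_of_disjoint]
  · rw [← Finset.filter_or]
    congr 1
    apply Finset.filter_congr
    intro i _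
    exact side_split T.isTree h hn h1 h2 (hv i)
  · rw [Finset.disjoint_filter]
    intro i _ h3 h4
    exact h12 (nb_unique T.isTree.isAcyclic a1 a2 h3 h4)

/-- a heavy dart: at least two thirds of `X` lie on its head side -/
theorem exists_heavy {n : ℕ} (T : SBTree n) (X : Finset (Fin n)) (hX : 3 ≤ X.card) :
    ∃ u v, T.G.Adj u v ∧ 2 * X.card ≤ 3 * num T X u v := by
  classical
  obtain ⟨i, hi⟩ : X.Nonempty := by
    rw [← Finset.card_pos]
    omega
  obtain ⟨w, hw⟩ := Set.ncard_eq_one.mp (ncard_leaf T i)
  have hadj : T.G.Adj (T.leaf i) w := by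
    have : w ∈ T.G.neighborSet (T.leaf i) := by rw [hw]; rfl
    exact this
  refine ⟨T.leaf i, w, hadj, ?_⟩
  have h1 := num_add T X hadj
  have h2 : num T X w (T.leaf i) ≤ 1 := by
    unfold num
    rw [Finset.card_le_one]
    have key : ∀ a, T.leaf a ∈ side T.G w (T.leaf i) → a = i := by
      intro a ha
      by_contra hne
      have hne' : T.leaf a ≠ T.leaf i := fun h => hne (T.leaf_injective h)
      obtain ⟨w', hw', hx⟩ := exists_nb T.isTree.connected hne'
      have : w' ∈ T.G.neighborSet (T.leaf i) := hw'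
      rw [hw] at this
      have hww : w' = w := this
      rw [hww] at hx
      exact side_not_both T.isTree.isAcyclic hadj hx ha
    intro a ha b hb
    rw [Finset.mem_filter] at ha hb
    rw [key a ha.2, key b hb.2]
  omega

/-- **Edge lemma.** Some edge has at least a third of `X` on each side. -/
theorem exists_edge {n : ℕ} (T : SBTree n) (X : Finset (Fin n)) (hX : 3 ≤ X.card) :
    ∃ u v, T.G.Adj u v ∧ X.card ≤ 3 * num T X u v ∧ X.card ≤ 3 * num T X v u := by
  classical
  have hfin := T.finite
  -- take a heavy dart with the smallest number of vertices on its head side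
  obtain ⟨u₀, v₀, h₀, hh₀⟩ := exists_heavy T X hX
  let P : ℕ → Prop := fun m => ∃ u v, T.G.Adj u v ∧ 2 * X.card ≤ 3 * num T X u v ∧
    (side T.G u v).ncard = m
  have hP : ∃ m, P m := ⟨_, u₀, v₀, h₀, hh₀, rfl⟩
  obtain ⟨u, v, huv, hheavy, hm⟩ := Nat.find_spec hP
  have hmin : ∀ w, T.G.Adj v w → w ≠ u → ¬ (2 * X.card ≤ 3 * num T X v w) := by
    intro w hw hne hcon
    have hlt : (side T.G v w).ncard < Nat.find hP := by
      rw [← hm]
      apply Set.ncard_lt_ncard _ (Set.toFinite _)
      refine ⟨side_sub T.isTree huv hw hne, fun hsub => ?_⟩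
      exact notMem_side T.isTree.isAcyclic hw (hsub (mem_side_self u v))
    exact Nat.find_min hP hlt ⟨v, w, hw, hcon, rfl⟩
  rcases T.degree v with hd | hd
  · -- `v` is a leaf: impossible
    exfalso
    obtain ⟨w, hw⟩ := Set.ncard_eq_one.mp hd
    have hu : T.G.neighborSet v = {u} := by
      have : u ∈ T.G.neighborSet v := huv.symm
      rw [hw] at this
      rw [hw, Set.mem_singleton_iff.mp this]
    have h2 : num T X u v ≤ 1 := by
      unfold num
      rw [Finset.card_le_one]
      have key : ∀ a, T.leaf a ∈ side T.G u v → T.leaf a = v := by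
        intro a ha
        by_contra hne
        obtain ⟨w', hw', hx⟩ := exists_nb T.isTree.connected hne
        have : w' ∈ T.G.neighborSet v := hw'
        rw [hu] at this
        have hww : w' = u := this
        rw [hww] at hx
        exact side_not_both T.isTree.isAcyclic huv ha hx
      intro a ha b hb
      rw [Finset.mem_filter] at ha hb
      exact T.leaf_injective ((key a ha.2).trans (key b hb.2).symm)
    omega
  · -- `v` has two other neighbours
    obtain ⟨w₁, w₂, hn, h1, h2, h12⟩ : ∃ w₁ w₂, T.G.neighborSet v = {u, w₁, w₂} ∧ w₁ ≠ u ∧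
        w₂ ≠ u ∧ w₁ ≠ w₂ := by
      obtain ⟨a, b, c, hab, hac, hbc, habc⟩ := Set.ncard_eq_three.mp hd
      have hu : u ∈ T.G.neighborSet v := huv.symm
      rw [habc] at hu
      rcases hu with rfl | rfl | rfl
      · exact ⟨b, c, habc, hab.symm, hac.symm, hbc⟩
      · refine ⟨a, c, ?_, hab, hbc.symm, hac⟩
        rw [habc, Set.insert_comm]
      · refine ⟨a, b, ?_, hac, hbc, hab⟩
        rw [habc]
        ext x
        simp only [Set.mem_insert_iff, Set.mem_singleton_iff]
        tauto
    have a1 : T.G.Adj v w₁ := by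
      have : w₁ ∈ T.G.neighborSet v := by rw [hn]; simp
      exact this
    have a2 : T.G.Adj v w₂ := by
      have : w₂ ∈ T.G.neighborSet v := by rw [hn]; simp
      exact this
    have hs := num_split T X huv hn h1 h2 h12
    have m1 := hmin w₁ a1 h1
    have m2 := hmin w₂ a2 h2
    have s1 := num_add T X a1
    have s2 := num_add T X a2
    rcases le_total (num T X v w₁) (num T X v w₂) with hle | hle
    · exact ⟨v, w₂, a2, by omega, by omega⟩
    · exact ⟨v, w₁, a1, by omega, by omega⟩

/-- the sets `X` and `A` of labels are separated by an edge of `T` -/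
def Separated {n : ℕ} (T : SBTree n) (X A : Finset (Fin n)) : Prop :=
  ∃ u v, T.G.Adj u v ∧ (∀ i ∈ X, T.leaf i ∈ side T.G u v) ∧ ∀ i ∈ A, T.leaf i ∈ side T.G v u

theorem Separated.mono {n : ℕ} {T : SBTree n} {X A X' A' : Finset (Fin n)}
    (h : Separated T X A) (hX : X' ⊆ X) (hA : A' ⊆ A) : Separated T X' A' := by
  obtain ⟨u, v, h1, h2, h3⟩ := h
  exact ⟨u, v, h1, fun i hi => h2 i (hX hi), fun i hi => h3 i (hA hi)⟩

theorem exists_separated {n : ℕ} (T : SBTree n) (X A : Finset (Fin n)) (hX : 3 ≤ X.card) :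
    ∃ X' ⊆ X, ∃ A' ⊆ A, X.card ≤ 3 * X'.card ∧ A.card ≤ 2 * A'.card ∧ Separated T X' A' := by
  classical
  obtain ⟨u, v, h, h1, h2⟩ := exists_edge T X hX
  have hA := num_add T A h
  rcases le_total (num T A u v) (num T A v u) with hle | hle
  · refine ⟨X.filter (fun i => T.leaf i ∈ side T.G u v), Finset.filter_subset _ _,
      A.filter (fun i => T.leaf i ∈ side T.G v u), Finset.filter_subset _ _, h1, ?_,
      u, v, h, fun i hi => (Finset.mem_filter.mp hi).2, fun i hi => (Finset.mem_filter.mp hi).2⟩
    have : num T A v u = (A.filter (fun i => T.leaf i ∈ side T.G v u)).card := rfl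
    omega
  · refine ⟨X.filter (fun i => T.leaf i ∈ side T.G v u), Finset.filter_subset _ _,
      A.filter (fun i => T.leaf i ∈ side T.G u v), Finset.filter_subset _ _, h2, ?_,
      v, u, h.symm, fun i hi => (Finset.mem_filter.mp hi).2,
      fun i hi => (Finset.mem_filter.mp hi).2⟩
    have : num T A u v = (A.filter (fun i => T.leaf i ∈ side T.G u v)).card := rfl
    omega

/-- Iterated over all trees. -/
theorem exists_all_separated {n : ℕ} (t : ℕ) : ∀ (T : Fin t → SBTree n) (X A : Finset (Fin n)),
    3 ^ t ≤ X.card → ∃ X' ⊆ X, ∃ A' ⊆ A, X.card ≤ 3 ^ t * X'.card ∧ A.card ≤ 2 ^ t * A'.card ∧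
      ∀ i, Separated (T i) X' A' := by
  induction t with
  | zero =>
    intro T X A _
    exact ⟨X, subset_rfl, A, subset_rfl, by simp, by simp, fun i => i.elim0⟩
  | succ t ih =>
    intro T X A hX
    have hpos : 1 ≤ 3 ^ t := Nat.one_le_pow _ _ (by norm_num)
    obtain ⟨X₁, hX₁, A₁, hA₁, c1, c2, hs⟩ := ih (fun i => T i.castSucc) X A
      (by rw [pow_succ] at hX; omega)
    have h3 : 3 ≤ X₁.card := by
      by_contra hlt
      push Not at hlt
      have : X₁.card ≤ 2 := by omega
      have h4 : 3 ^ t * X₁.card ≤ 3 ^ t * 2 := Nat.mul_le_mul_left _ this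
      rw [pow_succ] at hX
      omega
    obtain ⟨X₂, hX₂, A₂, hA₂, d1, d2, hs'⟩ := exists_separated (T (Fin.last t)) X₁ A₁ h3
    refine ⟨X₂, hX₂.trans hX₁, A₂, hA₂.trans hA₁, ?_, ?_, ?_⟩
    · calc X.card ≤ 3 ^ t * X₁.card := c1
        _ ≤ 3 ^ t * (3 * X₂.card) := Nat.mul_le_mul_left _ d1
        _ = 3 ^ (t + 1) * X₂.card := by ring
    · calc A.card ≤ 2 ^ t * A₁.card := c2
        _ ≤ 2 ^ t * (2 * A₂.card) := Nat.mul_le_mul_left _ d2
        _ = 2 ^ (t + 1) * A₂.card := by ring
    · intro i
      induction i using Fin.lastCases with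
      | last => exact hs'
      | cast i => exact (hs i).mono hX₂ hA₂

end count

end Q162.Phylo
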