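import Mathlib
import Pool.Agent.Q162.Phylo.Side

set_option autoImplicit false

namespace Q162.Phylo

open SimpleGraph

section member

variable {n : ℕ} (T : SBTree n)

/-- the leaves whose label is not in `S` -/
def dead (S : Finset (Fin n)) : Set T.V := {v | ∃ i, i ∉ S ∧ T.leaf i = v}

/-- the graph `K` without the edges at the dead leaves -/
def alive (K : SimpleGraph T.V) (S : Finset (Fin n)) : SimpleGraph T.V where
  Adj a b := K.Adj a b ∧ a ∉ dead T S ∧ b ∉ dead T S
  symm := ⟨fun _ _ h => ⟨h.1.symm, h.2.2, h.2.1⟩⟩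
  loopless := ⟨fun a h => K.loopless.irrefl a h.1⟩

theorem alive_le (K : SimpleGraph T.V) (S : Finset (Fin n)) : alive T K S ≤ K := fun _ _ h => h.1

theorem reach_alive (K : SimpleGraph T.V) (hK : K ≤ T.G) (S : Finset (Fin n)) (m : ℕ) :
    ∀ (a b : T.V), a ∉ dead T S → b ∉ dead T S → ∀ p : K.Walk a b, p.length ≤ m →
      (alive T K S).Reachable a b := by
  induction m using Nat.strong_induction_on with
  | _ m ih =>
    intro a b ha hb p hp
    cases p with
    | nil => exact Reachable.refl _
    | @cons _ c _ h q =>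
      rw [Walk.length_cons] at hp
      by_cases hc : c ∈ dead T S
      · obtain ⟨i, hi, hic⟩ := id hc
        cases q with
        | nil => exact absurd hc hb
        | @cons _ d _ h' q' =>
          rw [Walk.length_cons] at hp
          have h1 := ncard_leaf T i
          rw [hic] at h1
          obtain ⟨w, hw⟩ := Set.ncard_eq_one.mp h1
          have ha' : a = w := by
            have : a ∈ T.G.neighborSet c := (hK h).symm
            rw [hw] at this
            exact this
          have hd' : d = w := by
            have : d ∈ T.G.neighborSet c := hK h'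
            rw [hw] at this
            exact this
          have had : d = a := hd'.trans ha'.symm
          subst had
          exact ih q'.length (by omega) d b ha hb q' le_rfl
      · have hadj : (alive T K S).Adj a c := ⟨h, ha, hc⟩
        exact hadj.reachable.trans (ih q.length (by omega) c b hc hb q le_rfl)

theorem leaf_notMem_dead {S : Finset (Fin n)} {i : Fin n} (hi : i ∈ S) : T.leaf i ∉ dead T S := by
  rintro ⟨j, hj, hji⟩
  have := T.leaf_injective hji
  subst this
  exact hj hi

theorem mem_of_reach {K : SimpleGraph T.V} {S : Finset (Fin n)} {i j : Fin n} (hne : i ≠ j)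
    (h : (alive T K S).Reachable (T.leaf i) (T.leaf j)) : i ∈ S := by
  by_contra hi
  obtain ⟨p⟩ := h
  have hend : T.leaf i ≠ T.leaf j := fun h => hne (T.leaf_injective h)
  have key : ∀ (a b : T.V), a ≠ b → (alive T K S).Walk a b → a ∉ dead T S := by
    intro a b hab q
    cases q with
    | nil => exact absurd rfl hab
    | cons h q => exact h.2.1
  exact key _ _ hend p ⟨i, hi, rfl⟩

/-- Two classes separated by an edge, and singletons. -/
theorem mem_two (X A : Finset (Fin n)) (hs : Separated T X A) (r : Setoid (Fin n))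
    (hr : ∀ i j, r i j ↔ i = j ∨ (i ∈ X ∧ j ∈ X) ∨ (i ∈ A ∧ j ∈ A)) : r ∈ T.partitions := by
  classical
  obtain ⟨u, v, huv, hX, hA⟩ := hs
  have hKG : T.G.deleteEdges {s(u, v)} ≤ T.G := deleteEdges_le _
  have hX' : ∀ i ∈ X, (T.G.deleteEdges {s(u, v)}).Reachable (T.leaf i) v := hX
  have hA' : ∀ i ∈ A, (T.G.deleteEdges {s(u, v)}).Reachable (T.leaf i) u := by
    intro i hi
    have h1 : (T.G.deleteEdges {s(v, u)}).Reachable (T.leaf i) u := hA i hi
    rwa [Sym2.eq_swap] at h1
  have hb := (isAcyclic_iff_forall_adj_isBridge.mp T.isTree.isAcyclic) huv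
  rw [isBridge_iff] at hb
  refine ⟨alive T (T.G.deleteEdges {s(u, v)}) (X ∪ A), (alive_le T _ _).trans hKG, ?_⟩
  intro i j
  rw [hr]
  constructor
  · rintro (rfl | ⟨hi, hj⟩ | ⟨hi, hj⟩)
    · exact Reachable.refl _
    · obtain ⟨p⟩ := (hX' i hi).trans (hX' j hj).symm
      exact reach_alive T _ hKG _ p.length _ _
        (leaf_notMem_dead T (Finset.mem_union_left _ hi))
        (leaf_notMem_dead T (Finset.mem_union_left _ hj)) p le_rfl
    · obtain ⟨p⟩ := (hA' i hi).trans (hA' j hj).symm
      exact reach_alive T _ hKG _ p.length _ _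
        (leaf_notMem_dead T (Finset.mem_union_right _ hi))
        (leaf_notMem_dead T (Finset.mem_union_right _ hj)) p le_rfl
  · intro h
    by_cases hne : i = j
    · exact Or.inl hne
    · right
      have hi := mem_of_reach T hne h
      have hj := mem_of_reach T (Ne.symm hne) h.symm
      have hK : (T.G.deleteEdges {s(u, v)}).Reachable (T.leaf i) (T.leaf j) :=
        h.mono (alive_le T _ _)
      rw [Finset.mem_union] at hi hj
      rcases hi with hi | hi <;> rcases hj with hj | hj
      · exact Or.inl ⟨hi, hj⟩
      · exact (hb (((hA' j hj).symm.trans hK.symm).trans (hX' i hi))).elim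
      · exact (hb (((hA' i hi).symm.trans hK).trans (hX' j hj))).elim
      · exact Or.inr ⟨hi, hj⟩

/-- One class and singletons. -/
theorem mem_one (B : Finset (Fin n)) (r : Setoid (Fin n))
    (hr : ∀ i j, r i j ↔ i = j ∨ (i ∈ B ∧ j ∈ B)) : r ∈ T.partitions := by
  classical
  refine ⟨alive T T.G B, alive_le T _ _, ?_⟩
  intro i j
  rw [hr]
  constructor
  · rintro (rfl | ⟨hi, hj⟩)
    · exact Reachable.refl _
    · obtain ⟨p⟩ := T.isTree.connected.preconnected (T.leaf i) (T.leaf j)
      exact reach_alive T _ le_rfl _ p.length _ _ (leaf_notMem_dead T hi)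
        (leaf_notMem_dead T hj) p le_rfl
  · intro h
    by_cases hne : i = j
    · exact Or.inl hne
    · exact Or.inr ⟨mem_of_reach T hne h, mem_of_reach T (Ne.symm hne) h.symm⟩

end member

section classes

variable {n : ℕ}

/-- the labelling with classes `B`, `C` and singletons -/
def lab (B C : Finset (Fin n)) (i : Fin n) : ℕ := if i ∈ B then n else if i ∈ C then n + 1 else i.val

theorem lab_iff (B C : Finset (Fin n)) (hBC : Disjoint B C) (i j : Fin n) :
    lab B C i = lab B C j ↔ i = j ∨ (i ∈ B ∧ j ∈ B) ∨ (i ∈ C ∧ j ∈ C) := by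
  have hd : ∀ x, x ∈ B → x ∉ C := fun x h1 h2 => Finset.disjoint_left.mp hBC h1 h2
  have hi := i.isLt
  have hj := j.isLt
  unfold lab
  by_cases iB : i ∈ B <;> by_cases jB : j ∈ B
  · simp [iB, jB]
  · have iC := hd i iB
    have hne : i ≠ j := fun h => jB (h ▸ iB)
    rw [if_pos iB, if_neg jB]
    split_ifs with jC
    · constructor
      · intro h; omega
      · rintro (h | h | h)
        · exact absurd h hne
        · exact absurd h.2 jB
        · exact absurd h.1 iC
    · constructor
      · intro h; omega
      · rintro (h | h | h)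
        · exact absurd h hne
        · exact absurd h.2 jB
        · exact absurd h.1 iC
  · have jC := hd j jB
    have hne : i ≠ j := fun h => iB (h ▸ jB)
    rw [if_neg iB, if_pos jB]
    split_ifs with iC
    · constructor
      · intro h; omega
      · rintro (h | h | h)
        · exact absurd h hne
        · exact absurd h.1 iB
        · exact absurd h.2 jC
    · constructor
      · intro h; omega
      · rintro (h | h | h)
        · exact absurd h hne
        · exact absurd h.1 iB
        · exact absurd h.2 jC
  · rw [if_neg iB, if_neg jB]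
    by_cases iC : i ∈ C <;> by_cases jC : j ∈ C
    · simp [iC, jC]
    · rw [if_pos iC, if_neg jC]
      have hne : i ≠ j := fun h => jC (h ▸ iC)
      constructor
      · intro h; omega
      · rintro (h | h | h)
        · exact absurd h hne
        · exact absurd h.1 iB
        · exact absurd h.2 jC
    · rw [if_neg iC, if_pos jC]
      have hne : i ≠ j := fun h => iC (h ▸ jC)
      constructor
      · intro h; omega
      · rintro (h | h | h)
        · exact absurd h hne
        · exact absurd h.1 iB
        · exact absurd h.1 iC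
    · rw [if_neg iC, if_neg jC]
      constructor
      · intro h; exact Or.inl (Fin.ext h)
      · rintro (h | h | h)
        · rw [h]
        · exact absurd h.1 iB
        · exact absurd h.1 iC

theorem image_lab_card_one (B : Finset (Fin n)) (hB : B.Nonempty) :
    (Finset.univ.image (lab B ∅)).card + B.card = n + 1 := by
  classical
  have h : Finset.univ.image (lab B ∅) = insert n (Bᶜ.image Fin.val) := by
    ext x
    simp only [Finset.mem_image, Finset.mem_univ, true_and, Finset.mem_insert, Finset.mem_compl]
    constructor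
    · rintro ⟨i, rfl⟩
      unfold lab
      by_cases hi : i ∈ B
      · left; rw [if_pos hi]
      · right
        refine ⟨i, hi, ?_⟩
        rw [if_neg hi, if_neg (Finset.notMem_empty i)]
    · rintro (rfl | ⟨i, hi, rfl⟩)
      · obtain ⟨i, hi⟩ := hB
        exact ⟨i, by unfold lab; rw [if_pos hi]⟩
      · exact ⟨i, by unfold lab; rw [if_neg hi, if_neg (Finset.notMem_empty i)]⟩
  rw [h, Finset.card_insert_of_notMem, Finset.card_image_of_injective _ Fin.val_injective,
    Finset.card_compl, Fintype.card_fin]
  · have := Finset.card_le_univ B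
    rw [Fintype.card_fin] at this
    omega
  · simp only [Finset.mem_image, not_exists, not_and]
    intro i _ h
    have := i.isLt
    omega

theorem image_lab_card_two (B C : Finset (Fin n)) (hBC : Disjoint B C) (hB : B.Nonempty)
    (hC : C.Nonempty) : (Finset.univ.image (lab B C)).card + B.card + C.card = n + 2 := by
  classical
  have hd : ∀ x, x ∈ B → x ∉ C := fun x h1 h2 => Finset.disjoint_left.mp hBC h1 h2
  have h : Finset.univ.image (lab B C) = insert n (insert (n + 1) ((B ∪ C)ᶜ.image Fin.val)) := by
    ext x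
    simp only [Finset.mem_image, Finset.mem_univ, true_and, Finset.mem_insert, Finset.mem_compl,
      Finset.mem_union, not_or]
    constructor
    · rintro ⟨i, rfl⟩
      unfold lab
      by_cases hi : i ∈ B
      · left; rw [if_pos hi]
      · by_cases hi' : i ∈ C
        · right; left; rw [if_neg hi, if_pos hi']
        · right; right
          refine ⟨i, ⟨hi, hi'⟩, ?_⟩
          rw [if_neg hi, if_neg hi']
    · rintro (rfl | rfl | ⟨i, hi, rfl⟩)
      · obtain ⟨i, hi⟩ := hB
        exact ⟨i, by unfold lab; rw [if_pos hi]⟩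
      · obtain ⟨i, hi⟩ := hC
        exact ⟨i, by unfold lab; rw [if_neg (fun h => hd i h hi), if_pos hi]⟩
      · exact ⟨i, by unfold lab; rw [if_neg hi.1, if_neg hi.2]⟩
  have hc := Finset.card_union_of_disjoint hBC
  have hle := Finset.card_le_univ (B ∪ C)
  rw [Fintype.card_fin] at hle
  rw [h, Finset.card_insert_of_notMem, Finset.card_insert_of_notMem,
    Finset.card_image_of_injective _ Fin.val_injective, Finset.card_compl, Fintype.card_fin]
  · omega
  · simp only [Finset.mem_image, not_exists, not_and]
    intro i _ h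
    have := i.isLt
    omega
  · simp only [Finset.mem_insert, Finset.mem_image, not_or, not_exists, not_and]
    refine ⟨by omega, ?_⟩
    intro i _ h
    have := i.isLt
    omega

theorem card_quotient_ker (f : Fin n → ℕ) :
    Nat.card (Quotient (Setoid.ker f)) = (Finset.univ.image f).card := by
  rw [Nat.card_congr (Setoid.quotientKerEquivRange f), ← Set.image_univ, ← Finset.coe_univ,
    ← Finset.coe_image]
  exact Nat.card_eq_finsetCard _

theorem finite_setoid (n : ℕ) : Finite (Setoid (Fin n)) := by
  apply Finite.of_injective (fun r : Setoid (Fin n) => (fun i j => r i j : Fin n → Fin n → Prop))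
  intro r r' h
  ext i j
  exact iff_of_eq (congrFun (congrFun h i) j)

/-- **Counting.** Trees with two big sets separated in all of them have a nontrivial common
partition into `n - m` classes. -/
theorem count {t : ℕ} (T : Fin t → SBTree n) (X A : Finset (Fin n)) (m : ℕ) (hm : 2 ≤ m)
    (hmn : m + 1 ≤ n) (hX : 2 ≤ X.card) (hA : m ≤ A.card) (hXA : Disjoint X A)
    (hs : ∀ i, Separated (T i) X A) : n.choose (n - m - 1) < numCommon T (n - m) := by
  classical
  obtain ⟨X', hX', hX'c⟩ := Finset.exists_subset_card_eq hX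
  obtain ⟨A', hA', hA'c⟩ := Finset.exists_subset_card_eq hA
  have hd : Disjoint X' A' := Finset.disjoint_of_subset_left hX'
    (Finset.disjoint_of_subset_right hA' hXA)
  have hs' : ∀ i, Separated (T i) X' A' := fun i => (hs i).mono hX' hA'
  let S₁ : Set (Setoid (Fin n)) := (fun B : Finset (Fin n) => Setoid.ker (lab B ∅)) ''
    ((Finset.powersetCard (m + 1) (Finset.univ : Finset (Fin n)) : Finset (Finset (Fin n))) :
      Set (Finset (Fin n)))
  let r₂ : Setoid (Fin n) := Setoid.ker (lab X' A')
  have hr₁ : ∀ (B : Finset (Fin n)) (i j : Fin n), Setoid.ker (lab B ∅) i j ↔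
      i = j ∨ (i ∈ B ∧ j ∈ B) := by
    intro B i j
    rw [Setoid.ker_def, lab_iff B ∅ (Finset.disjoint_empty_right B)]
    simp
  have hr₂ : ∀ i j : Fin n, r₂ i j ↔ i = j ∨ (i ∈ X' ∧ j ∈ X') ∨ (i ∈ A' ∧ j ∈ A') := by
    intro i j
    change Setoid.ker (lab X' A') i j ↔ _
    rw [Setoid.ker_def, lab_iff X' A' hd]
  have hsub1 : ∀ (B C : Finset (Fin n)), 2 ≤ B.card → Setoid.ker (lab B ∅) =
      Setoid.ker (lab C ∅) → B ⊆ C := by
    intro B C hB h i hi
    obtain ⟨j, hj, hne⟩ := Finset.exists_mem_ne (by omega : 1 < B.card) i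
    have h1 : Setoid.ker (lab B ∅) i j := (hr₁ B i j).mpr (Or.inr ⟨hi, hj⟩)
    rw [h, hr₁] at h1
    rcases h1 with h1 | h1
    · exact absurd h1.symm hne
    · exact h1.1
  have hS₁ : S₁.ncard = n.choose (n - m - 1) := by
    rw [Set.InjOn.ncard_image, Set.ncard_coe_finset, Finset.card_powersetCard, Finset.card_univ,
      Fintype.card_fin]
    · exact Nat.choose_symm_of_eq_add (by omega)
    · intro B hB C hC h
      rw [Finset.mem_coe, Finset.mem_powersetCard] at hB hC
      exact Finset.Subset.antisymm (hsub1 B C (by omega) h) (hsub1 C B (by omega) h.symm)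
  have hr₂S : r₂ ∉ S₁ := by
    rintro ⟨B, hB, hBr⟩
    simp only at hBr
    obtain ⟨x, y, hxy, hXe⟩ := Finset.card_eq_two.mp hX'c
    obtain ⟨a, ha⟩ : A'.Nonempty := by rw [← Finset.card_pos]; omega
    obtain ⟨b, hb, hab⟩ := Finset.exists_mem_ne (by omega : 1 < A'.card) a
    have hxX : x ∈ X' := by rw [hXe]; simp
    have hyX : y ∈ X' := by rw [hXe]; simp
    have g1 : r₂ x y := (hr₂ x y).mpr (Or.inr (Or.inl ⟨hxX, hyX⟩))
    have g2 : r₂ a b := (hr₂ a b).mpr (Or.inr (Or.inr ⟨ha, hb⟩))
    have g3 : ¬ r₂ x a := by
      rw [hr₂]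
      rintro (h | h | h)
      · rw [h] at hxX
        exact Finset.disjoint_left.mp hd hxX ha
      · exact Finset.disjoint_left.mp hd h.2 ha
      · exact Finset.disjoint_left.mp hd hxX h.1
    rw [← hBr, hr₁] at g1 g2 g3
    rcases g1 with g1 | g1
    · exact hxy g1
    · rcases g2 with g2 | g2
      · exact hab g2.symm
      · exact g3 (Or.inr ⟨g1.1, g2.1⟩)
  have hfin := finite_setoid n
  have hsub : insert r₂ S₁ ⊆ {r : Setoid (Fin n) | (∀ i, r ∈ (T i).partitions) ∧
      Nat.card (Quotient r) = n - m} := by
    intro r hr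
    rcases hr with rfl | ⟨B, hB, rfl⟩
    · refine ⟨fun i => mem_two (T i) X' A' (hs' i) r₂ hr₂, ?_⟩
      have h1 := image_lab_card_two X' A' hd (by rw [← Finset.card_pos]; omega)
        (by rw [← Finset.card_pos]; omega)
      change Nat.card (Quotient (Setoid.ker (lab X' A'))) = n - m
      rw [card_quotient_ker]
      omega
    · rw [Finset.mem_coe, Finset.mem_powersetCard] at hB
      refine ⟨fun i => mem_one (T i) B _ (hr₁ B), ?_⟩
      have h1 := image_lab_card_one B (by rw [← Finset.card_pos]; omega)
      rw [card_quotient_ker]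
      omega
  have h2 : (insert r₂ S₁).ncard = n.choose (n - m - 1) + 1 := by
    rw [Set.ncard_insert_of_notMem hr₂S (Set.toFinite _), hS₁]
  have h3 := Set.ncard_le_ncard hsub (Set.toFinite _)
  rw [h2] at h3
  unfold numCommon
  omega

/-- All together. -/
theorem main {t : ℕ} (ht : 1 ≤ t) (hn : 2 * 3 ^ t ≤ n) (T : Fin t → SBTree n) :
    n.choose (n - n / 2 ^ t - 1) < numCommon T (n - n / 2 ^ t) := by
  have h3 : 1 ≤ 3 ^ t := Nat.one_le_pow _ _ (by norm_num)
  have h2 : 1 ≤ 2 ^ t := Nat.one_le_pow _ _ (by norm_num)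
  have h23 : 2 ^ t ≤ 3 ^ t := Nat.pow_le_pow_left (by norm_num) t
  obtain ⟨X, -, A, -, c1, c2, hs⟩ := exists_all_separated t T Finset.univ Finset.univ
    (by rw [Finset.card_univ, Fintype.card_fin]; omega)
  rw [Finset.card_univ, Fintype.card_fin] at c1 c2
  apply count T X A (n / 2 ^ t)
  · rw [Nat.le_div_iff_mul_le (by omega)]
    omega
  · have h4 : n / 2 ^ t < n := by
      apply Nat.div_lt_self (by omega)
      calc 1 < 2 := by norm_num
        _ = 2 ^ 1 := by norm_num
        _ ≤ 2 ^ t := Nat.pow_le_pow_right (by norm_num) ht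
    omega
  · by_contra hlt
    push Not at hlt
    have : X.card ≤ 1 := by omega
    have h5 : 3 ^ t * X.card ≤ 3 ^ t * 1 := Nat.mul_le_mul_left _ this
    omega
  · exact Nat.div_le_of_le_mul c2
  · rw [Finset.disjoint_left]
    intro i hi hi'
    obtain ⟨u, v, huv, h1, h2⟩ := hs ⟨0, by omega⟩
    exact side_not_both (T ⟨0, by omega⟩).isTree.isAcyclic huv (h1 i hi) (h2 i hi')
  · exact hs

end classes

end Q162.Phylo
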